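import Pool.Agent.helper72.UP.Spec

/-! Row up:EQC of project UP (MP_7e34bc_co): the number of zero subsums when all absolute values are equal. -/

set_option autoImplicit false

namespace Pool.Agent.helper72.UP

open Finset

theorem EQC_val (n : ℕ) (x : Fin n → ℝ) (c : ℝ) (hc : 0 < c) (hx : ∀ i, |x i| = c) (A B : Finset (Fin n))
    (hA : ∀ a, a ∈ A ↔ 0 < x a) (hB : ∀ a, a ∈ B ↔ x a < 0) (s : Finset (Fin n)) :
    #s = #(s ∩ A) + #(s ∩ B) ∧ ((∑ i ∈ s, x i = 0) ↔ #(s ∩ A) = #(s ∩ B)) := by
  have hdisj : Disjoint (s ∩ A) (s ∩ B) := by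
    rw [Finset.disjoint_left]
    intro a ha hb
    have h1 := (hA a).1 (Finset.mem_inter.1 ha).2
    have h2 := (hB a).1 (Finset.mem_inter.1 hb).2
    linarith
  have hun : s = (s ∩ A) ∪ (s ∩ B) := by
    ext a
    simp only [Finset.mem_union, Finset.mem_inter, hA, hB]
    constructor
    · intro h
      have h0 : x a ≠ 0 := by
        intro h0
        have h3 := hx a
        rw [h0, abs_zero] at h3
        linarith
      rcases lt_or_gt_of_ne h0 with h1 | h1
      · exact Or.inr ⟨h, h1⟩
      · exact Or.inl ⟨h, h1⟩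
    · rintro (h | h)
      · exact h.1
      · exact h.1
  have hsum : ∑ i ∈ s, x i = c * #(s ∩ A) - c * #(s ∩ B) := by
    have h0 : ∑ i ∈ s, x i = ∑ i ∈ (s ∩ A) ∪ (s ∩ B), x i := by
      rw [← hun]
    rw [h0, Finset.sum_union hdisj]
    have h1 : ∑ i ∈ s ∩ A, x i = ∑ i ∈ s ∩ A, c := by
      apply Finset.sum_congr rfl
      intro a ha
      have h1 := (hA a).1 (Finset.mem_inter.1 ha).2
      rw [← hx a, abs_of_pos h1]
    have h2 : ∑ i ∈ s ∩ B, x i = ∑ i ∈ s ∩ B, (-c) := by
      apply Finset.sum_congr rfl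
      intro a ha
      have h1 := (hB a).1 (Finset.mem_inter.1 ha).2
      rw [← hx a, abs_of_neg h1, neg_neg]
    rw [h1, h2, Finset.sum_const, Finset.sum_const]
    simp only [nsmul_eq_mul]
    ring
  refine ⟨?_, ?_⟩
  · have h0 : #s = #((s ∩ A) ∪ (s ∩ B)) := by
      rw [← hun]
    rw [h0]
    exact Finset.card_union_of_disjoint hdisj
  · rw [hsum]
    constructor
    · intro h
      have h1 : c * ((#(s ∩ A) : ℝ) - #(s ∩ B)) = 0 := by linarith
      rcases mul_eq_zero.1 h1 with h2 | h2
      · linarith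
      · exact_mod_cast sub_eq_zero.1 h2
    · intro h
      rw [h]
      ring

theorem EQC_main (n k : ℕ) (x : Fin n → ℝ) (c : ℝ) (hc : 0 < c) (hx : ∀ i, |x i| = c) (A B : Finset (Fin n))
    (hA : ∀ a, a ∈ A ↔ 0 < x a) (hB : ∀ a, a ∈ B ↔ x a < 0) :
    zer x k = ∑ i ∈ Icc 1 (k / 2), (#A).choose i * (#B).choose i := by
  have hAB : Disjoint A B := by
    rw [Finset.disjoint_left]
    intro a ha hb
    have h1 := (hA a).1 ha
    have h2 := (hB a).1 hb
    linarith
  have hval := EQC_val n x c hc hx A B hA hB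
  unfold zer
  rw [Finset.card_eq_sum_card_fiberwise (f := fun s : Finset (Fin n) => #(s ∩ A)) (t := Icc 1 (k / 2))]
  · apply Finset.sum_congr rfl
    intro i hi
    rw [Finset.mem_Icc] at hi
    rw [← Finset.card_powersetCard, ← Finset.card_powersetCard, ← Finset.card_product]
    have key1 : ∀ S ⊆ A, ∀ T ⊆ B, (S ∪ T) ∩ A = S := by
      intro S hS T hT
      ext a
      simp only [Finset.mem_inter, Finset.mem_union]
      constructor
      · rintro ⟨h | h, h2⟩
        · exact h
        · exact absurd (hT h) (Finset.disjoint_left.1 hAB h2)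
      · intro h
        exact ⟨Or.inl h, hS h⟩
    have key2 : ∀ S ⊆ A, ∀ T ⊆ B, (S ∪ T) ∩ B = T := by
      intro S hS T hT
      ext a
      simp only [Finset.mem_inter, Finset.mem_union]
      constructor
      · rintro ⟨h | h, h2⟩
        · exact absurd h2 (Finset.disjoint_left.1 hAB (hS h))
        · exact h
      · intro h
        exact ⟨Or.inr h, hT h⟩
    refine Finset.card_bij' (fun s _ => (s ∩ A, s ∩ B)) (fun p _ => p.1 ∪ p.2) ?_ ?_ ?_ ?_
    · intro s hs
      simp only [Finset.mem_filter, Finset.mem_univ, true_and] at hs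
      obtain ⟨⟨_, _, h3⟩, h4⟩ := hs
      have h5 := (hval s).2.1 h3
      rw [Finset.mem_product, Finset.mem_powersetCard, Finset.mem_powersetCard]
      exact ⟨⟨Finset.inter_subset_right, h4⟩, ⟨Finset.inter_subset_right, by
        show #(s ∩ B) = i
        rw [← h5, h4]⟩⟩
    · intro p hp
      rw [Finset.mem_product, Finset.mem_powersetCard, Finset.mem_powersetCard] at hp
      obtain ⟨⟨hp1, hp2⟩, ⟨hp3, hp4⟩⟩ := hp
      have hk1 := key1 p.1 hp1 p.2 hp3
      have hk2 := key2 p.1 hp1 p.2 hp3
      have hv := hval (p.1 ∪ p.2)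
      rw [hk1, hk2, hp2, hp4] at hv
      simp only [Finset.mem_filter, Finset.mem_univ, true_and]
      refine ⟨⟨?_, ?_, hv.2.2 rfl⟩, ?_⟩
      · rw [← Finset.card_pos]
        omega
      · omega
      · rw [hk1, hp2]
    · intro s hs
      simp only [Finset.mem_filter, Finset.mem_univ, true_and] at hs
      show s ∩ A ∪ s ∩ B = s
      have h1 := (hval s).1
      apply Finset.eq_of_subset_of_card_le
      · exact Finset.union_subset Finset.inter_subset_left Finset.inter_subset_left
      · rw [Finset.card_union_of_disjoint]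
        · exact h1.le
        · exact Finset.disjoint_of_subset_left Finset.inter_subset_right
            (Finset.disjoint_of_subset_right Finset.inter_subset_right hAB)
    · intro p hp
      rw [Finset.mem_product, Finset.mem_powersetCard, Finset.mem_powersetCard] at hp
      obtain ⟨⟨hp1, hp2⟩, ⟨hp3, hp4⟩⟩ := hp
      exact Prod.ext (key1 p.1 hp1 p.2 hp3) (key2 p.1 hp1 p.2 hp3)
  · intro s hs
    simp only [Finset.coe_filter, Finset.mem_univ, true_and, Set.mem_ofPred_eq] at hs
    obtain ⟨h1, h2, h3⟩ := hs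
    have h5 := (hval s).2.1 h3
    have h6 := (hval s).1
    have h7 : 0 < #s := Finset.card_pos.2 h1
    simp only [Finset.coe_Icc, Set.mem_Icc]
    omega

theorem EQC : EQC_stmt := by
  intro n k x c hc hx
  apply EQC_main n k x c hc hx
  · intro a
    simp
  · intro a
    simp

end Pool.Agent.helper72.UP
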